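import Pool.Agent.Helper65.KPV.St

set_option autoImplicit false

/-!
# PROJECT KP, chapter A part V, MODULE MIN (minimal primes of the ideal of denominators)
-/

namespace Pool.Agent.Helper78.KPV

open Pool.Agent.Helper65.KPV Pool.Agent.Helper5.KPA Pool.Agent.Helper52.KP

variable {S : Type} [CommRing S] [Algebra ℂ S]

/-- the ideal `{s ∈ B : s ζ ∈ B}` -/
def dI (B : Subalgebra ℂ S) (ζ : S) : Ideal B where
  carrier := {s | (s : S) * ζ ∈ B}
  add_mem' := by
    intro a b ha hb
    show ((a + b : B) : S) * ζ ∈ B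
    have h1 : ((a + b : B) : S) * ζ = (a : S) * ζ + (b : S) * ζ := by
      push_cast; ring
    rw [h1]
    exact B.add_mem ha hb
  zero_mem' := by
    show ((0 : B) : S) * ζ ∈ B
    have h1 : ((0 : B) : S) * ζ = 0 := by
      push_cast; ring
    rw [h1]
    exact B.zero_mem
  smul_mem' := by
    intro c a ha
    show ((c • a : B) : S) * ζ ∈ B
    have h1 : ((c • a : B) : S) * ζ = (c : S) * ((a : S) * ζ) := by
      rw [smul_eq_mul]; push_cast; ring
    rw [h1]
    exact B.mul_mem c.2 ha

theorem mem_dI (B : Subalgebra ℂ S) (ζ : S) (s : B) : s ∈ dI B ζ ↔ (s : S) * ζ ∈ B := Iff.rfl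

theorem hMIN : StMIN := by
  intro S _ _ _ B τ hN hτ
  haveI := hN.noeth
  have hfin : (dI B τ).minimalPrimes.Finite :=
    Ideal.finite_minimalPrimes_of_isNoetherianRing B (dI B τ)
  obtain ⟨h, q, hq, hinj⟩ : ∃ (h : ℕ) (q : Fin h → Ideal B),
      (∀ p, p ∈ (dI B τ).minimalPrimes ↔ ∃ i, q i = p) ∧ Function.Injective q := by
    haveI := hfin.fintype
    refine ⟨Fintype.card (dI B τ).minimalPrimes,
      fun i => ((Fintype.equivFin (dI B τ).minimalPrimes).symm i : Ideal B), ?_, ?_⟩
    · intro p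
      constructor
      · intro hp
        exact ⟨Fintype.equivFin _ ⟨p, hp⟩, by simp⟩
      · rintro ⟨i, rfl⟩
        exact ((Fintype.equivFin (dI B τ).minimalPrimes).symm i).2
    · intro i j hij
      exact (Fintype.equivFin (dI B τ).minimalPrimes).symm.injective (Subtype.ext hij)
  have hqm : ∀ i, q i ∈ (dI B τ).minimalPrimes := fun i => (hq _).2 ⟨i, rfl⟩
  have hy : ∀ i, ∃ y : B, q i = dI B ((y : S) * τ) := by
    intro i
    have h1 : Submodule.colon (dI B τ) {(1 : B)} = dI B τ := by
      ext s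
      rw [Submodule.mem_colon_singleton, smul_eq_mul, mul_one]
    have h2 : q i ∈ (Submodule.colon (dI B τ) {(1 : B)}).minimalPrimes := by
      rw [h1]; exact hqm i
    obtain ⟨y, hy⟩ := Submodule.exists_eq_colon_of_mem_minimalPrimes h2
    refine ⟨y, ?_⟩
    rw [hy]
    ext s
    rw [Submodule.mem_colon_singleton, smul_eq_mul, mem_dI, mem_dI]
    have h3 : ((s * y : B) : S) * τ = (s : S) * ((y : S) * τ) := by
      push_cast; ring
    rw [h3]
  choose y hy using hy
  have hle : ∀ i, ∀ s ∈ B, s * τ ∈ B → s * ((y i : S) * τ) ∈ B := by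
    intro i s hs hsτ
    have h1 : s * ((y i : S) * τ) = (y i : S) * (s * τ) := by ring
    rw [h1]
    exact B.mul_mem (y i).2 hsτ
  refine ⟨h, fun i => (y i : S) * τ, ?_, hle, ?_, ?_⟩
  · intro i
    haveI hp : (q i).IsPrime := (hqm i).1.1
    refine ⟨?_, ?_, ?_⟩
    · intro hB
      apply hp.ne_top
      rw [Ideal.eq_top_iff_one, hy i, mem_dI]
      simpa using hB
    · obtain ⟨s, hs, hs0, hsτ⟩ := hτ
      exact ⟨s, hs, hs0, hle i s hs hsτ⟩
    · intro s hs t ht hst
      have h1 : (⟨s, hs⟩ * ⟨t, ht⟩ : B) ∈ q i := by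
        rw [hy i, mem_dI]
        exact hst
      rcases hp.mem_or_mem h1 with h2 | h2
      · left
        rw [hy i, mem_dI] at h2
        exact h2
      · right
        rw [hy i, mem_dI] at h2
        exact h2
  · intro i j hij
    by_contra hcon
    push Not at hcon
    have h1 : q j ≤ q i := by
      intro s hs
      rw [hy j, mem_dI] at hs
      rw [hy i, mem_dI]
      exact hcon s s.2 hs
    have h2 : q i ≤ q j := (hqm i).2 (hqm j).1 h1
    exact hij (hinj (le_antisymm h2 h1))
  · intro ζ hζ hle'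
    haveI hP : (dI B ζ).IsPrime := by
      refine Ideal.IsPrime.mk ?_ ?_
      · intro htop
        apply hζ.nB
        have h1 : (1 : B) ∈ dI B ζ := by rw [htop]; trivial
        rw [mem_dI] at h1
        simpa using h1
      · intro s t hst
        rw [mem_dI] at hst
        exact hζ.prime s s.2 t t.2 hst
    have hI : dI B τ ≤ dI B ζ := by
      intro s hs
      exact hle' s s.2 hs
    obtain ⟨p, hp, hpζ⟩ := Ideal.exists_minimalPrimes_le hI
    obtain ⟨i, rfl⟩ := (hq p).1 hp
    refine ⟨i, fun s hs hsi => ?_⟩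
    have h1 : (⟨s, hs⟩ : B) ∈ q i := by
      rw [hy i, mem_dI]
      exact hsi
    exact hpζ h1

end Pool.Agent.Helper78.KPV
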